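import Pool.Agent.Q75.BM.Stm

/-!
Project BM (MP_bed24d_an): bounds for the Hilbert-Schmidt norm of word matrices. The statement
`S_HB` is false for the empty word (`hs 1 = √2`); `S_HBx` is the corrected statement.
`t_CHx` and `t_LMx` are the proofs of helper221 and helper16 with the corrected premise.
-/

set_option autoImplicit false

namespace Pool.Agent.Q278.BM

open Filter Topology MeasureTheory Set
open scoped ContDiff
open Pool.Agent.Q75.BM

/-- the corrected form of `S_HB` -/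
def S_HBx : Prop := (∀ M : SL, 1 ≤ hs M) ∧ (∀ M N : SL, hs (M * N) ≤ hs M * hs N) ∧
  ∀ w : List Ltr, Continuous (fun l : ℂ => Real.log (hs (wmat w l))) ∧
    ∀ l : ℂ, 0 ≤ Real.log (hs (wmat w l)) ∧
      (w ≠ [] → Real.log (hs (wmat w l)) ≤ w.length * Real.log (‖l‖ + 2))

theorem one_le_hs (M : SL) : 1 ≤ hs M := by
  unfold hs
  rw [Real.one_le_sqrt]
  have hd : M.1 0 0 * M.1 1 1 - M.1 0 1 * M.1 1 0 = 1 := by
    have := M.2
    rwa [Matrix.det_fin_two] at this
  have h1 : (1 : ℝ) ≤ ‖M.1 0 0‖ * ‖M.1 1 1‖ + ‖M.1 0 1‖ * ‖M.1 1 0‖ := by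
    calc (1 : ℝ) = ‖M.1 0 0 * M.1 1 1 - M.1 0 1 * M.1 1 0‖ := by rw [hd]; simp
      _ ≤ ‖M.1 0 0 * M.1 1 1‖ + ‖M.1 0 1 * M.1 1 0‖ := norm_sub_le _ _
      _ = _ := by rw [norm_mul, norm_mul]
  simp only [Fin.sum_univ_two]
  nlinarith [sq_nonneg (‖M.1 0 0‖ - ‖M.1 1 1‖), sq_nonneg (‖M.1 0 1‖ - ‖M.1 1 0‖)]

theorem cs (a b c d : ℂ) : ‖a * b + c * d‖ ^ 2 ≤ (‖a‖ ^ 2 + ‖c‖ ^ 2) * (‖b‖ ^ 2 + ‖d‖ ^ 2) := by
  have h1 : ‖a * b + c * d‖ ≤ ‖a‖ * ‖b‖ + ‖c‖ * ‖d‖ := by
    refine (norm_add_le _ _).trans ?_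
    rw [norm_mul, norm_mul]
  have h2 : ‖a * b + c * d‖ ^ 2 ≤ (‖a‖ * ‖b‖ + ‖c‖ * ‖d‖) ^ 2 :=
    pow_le_pow_left₀ (norm_nonneg _) h1 2
  nlinarith [sq_nonneg (‖a‖ * ‖d‖ - ‖c‖ * ‖b‖)]

theorem hs_mul (M N : SL) : hs (M * N) ≤ hs M * hs N := by
  unfold hs
  rw [← Real.sqrt_mul (Finset.sum_nonneg fun i _ => Finset.sum_nonneg fun j _ => sq_nonneg _)]
  apply Real.sqrt_le_sqrt
  simp only [Fin.sum_univ_two, Matrix.SpecialLinearGroup.coe_mul, Matrix.mul_apply]
  have a1 := cs (M.1 0 0) (N.1 0 0) (M.1 0 1) (N.1 1 0)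
  have a2 := cs (M.1 0 0) (N.1 0 1) (M.1 0 1) (N.1 1 1)
  have a3 := cs (M.1 1 0) (N.1 0 0) (M.1 1 1) (N.1 1 0)
  have a4 := cs (M.1 1 0) (N.1 0 1) (M.1 1 1) (N.1 1 1)
  nlinarith

theorem mat_cont (s : Ltr) (i j : Fin 2) : Continuous fun l : ℂ => (mat s l).1 i j := by
  cases s <;> fin_cases i <;> fin_cases j <;>
    simp [mat, mA, mD, Matrix.SpecialLinearGroup.SL2_inv_expl] <;> fun_prop

theorem wmat_cons (s : Ltr) (w : List Ltr) (l : ℂ) : wmat (s :: w) l = mat s l * wmat w l := by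
  simp [wmat]

theorem wmat_cont (w : List Ltr) : ∀ i j : Fin 2, Continuous fun l : ℂ => (wmat w l).1 i j := by
  induction w with
  | nil => intro i j; simp only [wmat, List.map_nil, List.prod_nil]; exact continuous_const
  | cons s w ih =>
    intro i j
    simp only [wmat_cons, Matrix.SpecialLinearGroup.coe_mul, Matrix.mul_apply, Fin.sum_univ_two]
    exact ((mat_cont s i 0).mul (ih 0 j)).add ((mat_cont s i 1).mul (ih 1 j))

theorem hs_cont (w : List Ltr) : Continuous fun l : ℂ => hs (wmat w l) := by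
  unfold hs
  refine Real.continuous_sqrt.comp ?_
  refine continuous_finset_sum _ fun i _ => continuous_finset_sum _ fun j _ => ?_
  exact (wmat_cont w i j).norm.pow 2

theorem hs_inv (M : SL) : hs M⁻¹ = hs M := by
  have e : (M⁻¹).1 = !![M.1 1 1, -M.1 0 1; -M.1 1 0, M.1 0 0] := by
    have h := Matrix.SpecialLinearGroup.coe_inv M
    exact h.trans (Matrix.adjugate_fin_two _)
  unfold hs
  rw [e]
  simp only [Fin.sum_univ_two, Matrix.of_apply, Matrix.cons_val', Matrix.cons_val_zero,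
    Matrix.cons_val_one, Matrix.cons_val_fin_one, norm_neg]
  congr 1
  ring

theorem hs_mat (s : Ltr) (l : ℂ) : hs (mat s l) ≤ ‖l‖ + 2 := by
  have h0 := norm_nonneg l
  have hA : hs (mA l) ≤ ‖l‖ + 2 := by
    unfold hs
    rw [Real.sqrt_le_left (by linarith)]
    simp [mA, Fin.sum_univ_two]
    nlinarith
  have hD : hs mD ≤ ‖l‖ + 2 := by
    unfold hs
    rw [Real.sqrt_le_left (by linarith)]
    simp [mD, Fin.sum_univ_two]
    nlinarith
  cases s
  · exact hA
  · show hs (mA l)⁻¹ ≤ _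
    rw [hs_inv]; exact hA
  · exact hD
  · show hs mD⁻¹ ≤ _
    rw [hs_inv]; exact hD

theorem hs_word (w : List Ltr) (l : ℂ) (hw : w ≠ []) : hs (wmat w l) ≤ (‖l‖ + 2) ^ w.length := by
  induction w with
  | nil => exact absurd rfl hw
  | cons s w ih =>
    rw [wmat_cons]
    by_cases h : w = []
    · subst h
      have : wmat [] l = 1 := by simp [wmat]
      rw [this, mul_one]
      simpa using hs_mat s l
    · refine (hs_mul _ _).trans ?_
      rw [List.length_cons, pow_succ, mul_comm ((‖l‖ + 2) ^ w.length)]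
      exact mul_le_mul (hs_mat s l) (ih h) (by linarith [one_le_hs (wmat w l)])
        (by linarith [norm_nonneg l])

theorem t_HBx : S_HBx := by
  refine ⟨one_le_hs, hs_mul, fun w => ⟨?_, fun l => ⟨Real.log_nonneg (one_le_hs _), fun hw => ?_⟩⟩⟩
  · exact (hs_cont w).log fun l => by linarith [one_le_hs (wmat w l)]
  · have h0 : 0 < hs (wmat w l) := by linarith [one_le_hs (wmat w l)]
    rw [← Real.log_pow]
    exact Real.log_le_log h0 (hs_word w l hw)

theorem wmat_append (u v : List Ltr) (l : ℂ) : wmat (u ++ v) l = wmat u l * wmat v l := by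
  simp [wmat]

theorem t_CHx (h1 : S_E1) (h2 : S_E2) (h3 : S_HBx) : S_CH := by
  intro ε h0 hε l
  obtain ⟨hb1, hb2, hb3⟩ := h3
  have hcn : ∀ n : ℕ, 0 ≤ Ew ε n (fun w => Real.log (hs (wmat w l))) ∧
      (0 < n → Ew ε n (fun w => Real.log (hs (wmat w l))) ≤ n * Real.log (‖l‖ + 2)) := by
    intro n
    obtain ⟨_, _, e3, e4⟩ := h1 ε h0 hε n
    constructor
    · have := e4 (fun _ => 0) (fun w => Real.log (hs (wmat w l)))
        (fun w _ => ((hb3 w).2 l).1)
      rwa [e3] at this
    · intro hn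
      have := e4 (fun w => Real.log (hs (wmat w l))) (fun _ => n * Real.log (‖l‖ + 2))
        (fun w hw => by
          have := ((hb3 w).2 l).2 (by
            rintro rfl
            simp at hw
            omega)
          rwa [hw] at this)
      rwa [e3] at this
  have hsub : Subadditive (fun n : ℕ => Ew ε n (fun w => Real.log (hs (wmat w l)))) := by
    intro m n
    show Ew ε (m + n) (fun w => Real.log (hs (wmat w l))) ≤
      Ew ε m (fun w => Real.log (hs (wmat w l))) + Ew ε n (fun w => Real.log (hs (wmat w l)))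
    obtain ⟨a1, a2, a3, a4⟩ := h1 ε h0 hε m
    obtain ⟨b1, b2, b3, b4⟩ := h1 ε h0 hε n
    rw [(h2 ε h0 hε).1 m n]
    have key : ∀ u : List Ltr, u.length = m →
        Ew ε n (fun v => Real.log (hs (wmat (u ++ v) l))) ≤
        Real.log (hs (wmat u l)) + Ew ε n (fun w => Real.log (hs (wmat w l))) := by
      intro u _
      have hle : Ew ε n (fun v => Real.log (hs (wmat (u ++ v) l))) ≤
          Ew ε n (fun v => Real.log (hs (wmat u l)) + Real.log (hs (wmat v l))) := by
        refine b4 _ _ fun v _ => ?_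
        rw [wmat_append]
        have p1 : 0 < hs (wmat u l) := lt_of_lt_of_le one_pos (hb1 _)
        have p2 : 0 < hs (wmat v l) := lt_of_lt_of_le one_pos (hb1 _)
        have p3 : 0 < hs (wmat u l * wmat v l) := lt_of_lt_of_le one_pos (hb1 _)
        rw [← Real.log_mul p1.ne' p2.ne']
        exact Real.log_le_log p3 (hb2 _ _)
      refine hle.trans (le_of_eq ?_)
      rw [b1 (fun _ => Real.log (hs (wmat u l))) (fun v => Real.log (hs (wmat v l))), b3]
    refine (a4 _ (fun u => Real.log (hs (wmat u l)) +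
      Ew ε n (fun w => Real.log (hs (wmat w l)))) key).trans (le_of_eq ?_)
    rw [a1 (fun u => Real.log (hs (wmat u l)))
      (fun _ => Ew ε n (fun w => Real.log (hs (wmat w l)))), a3]
  have hbdd : BddBelow (range fun n : ℕ =>
      Ew ε n (fun w => Real.log (hs (wmat w l))) / n) := by
    refine ⟨0, ?_⟩
    rintro _ ⟨n, rfl⟩
    exact div_nonneg (hcn n).1 (Nat.cast_nonneg n)
  have ht := hsub.tendsto_lim hbdd
  refine ⟨?_, fun n => ⟨div_nonneg (hcn n).1 (Nat.cast_nonneg n), ?_⟩⟩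
  · have : chi ε l = hsub.lim := ht.limUnder_eq
    rw [this]
    exact ht
  · rcases Nat.eq_zero_or_pos n with rfl | hn
    · simp
      exact Real.log_nonneg (by linarith [norm_nonneg l])
    · rw [div_le_iff₀ (by exact_mod_cast hn)]
      have := (hcn n).2 hn
      linarith [mul_comm (n : ℝ) (Real.log (‖l‖ + 2))]

theorem t_LMx (hLP : S_LP) (hCH : S_CH) (hE3 : S_E3) (hHB : S_HBx) (hE1 : S_E1) : S_LM := by
  intro ε he0 he1
  have hlim := hCH ε he0 he1
  have hcont : ∀ n : ℕ, Continuous (fun l : ℂ => Ew ε n (fun w => Real.log (hs (wmat w l))) / n) :=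
    fun n => ((hE3 ε n).2 (fun w l => Real.log (hs (wmat w l))) fun w => (hHB.2.2 w).1).div_const _
  have hchi0 : ∀ l, 0 ≤ chi ε l := fun l =>
    ge_of_tendsto' (hlim l).1 fun n => ((hlim l).2 n).1
  have hchi1 : ∀ l, chi ε l ≤ Real.log (‖l‖ + 2) := fun l =>
    le_of_tendsto' (hlim l).1 fun n => ((hlim l).2 n).2
  have hmeas : Measurable (chi ε) :=
    measurable_of_tendsto_metrizable (fun n => (hcont n).measurable)
      (tendsto_pi_nhds.2 fun l => (hlim l).1)
  have hlogc : Continuous (fun l : ℂ => Real.log (‖l‖ + 2)) := by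
    refine Continuous.log (continuous_norm.add continuous_const) fun l => ?_
    have := norm_nonneg l
    positivity
  have hlog0 : ∀ l : ℂ, 0 ≤ Real.log (‖l‖ + 2) := fun l =>
    Real.log_nonneg (by have := norm_nonneg l; linarith)
  refine ⟨?_, fun φ hφ => ?_⟩
  · refine (hlogc.locallyIntegrable (μ := volume)).mono hmeas.aestronglyMeasurable
      (Eventually.of_forall fun l => ?_)
    rw [Real.norm_eq_abs, Real.norm_eq_abs, abs_of_nonneg (hchi0 l), abs_of_nonneg (hlog0 l)]
    exact hchi1 l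
  · obtain ⟨hLc, hLs, -⟩ := hLP φ hφ
    have e1 : ∀ n : ℕ, Ew ε n (fun w => ∫ l, Real.log (hs (wmat w l)) * Lap φ l) / n =
        ∫ l, (Ew ε n (fun w => Real.log (hs (wmat w l))) / n) * Lap φ l := by
      intro n
      rw [← ((hE3 ε n).1 (fun w l => Real.log (hs (wmat w l)) * Lap φ l) fun w =>
        Continuous.integrable_of_hasCompactSupport (((hHB.2.2 w).1).mul hLc) hLs.mul_left).2,
        ← integral_div]
      refine integral_congr_ae (Eventually.of_forall fun l => ?_)
      have h1 := (hE1 ε he0 he1 n).2.1 (Lap φ l) (fun w => Real.log (hs (wmat w l)))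
      have h2 : (fun w => Real.log (hs (wmat w l)) * Lap φ l) =
          fun w => Lap φ l * Real.log (hs (wmat w l)) := by
        funext w
        ring
      simp only [h2, h1]
      ring
    simp only [e1]
    refine tendsto_integral_of_dominated_convergence (fun l => Real.log (‖l‖ + 2) * |Lap φ l|)
      (fun n => ((hcont n).mul hLc).aestronglyMeasurable) ?_ (fun n => ?_) ?_
    · exact Continuous.integrable_of_hasCompactSupport (hlogc.mul hLc.abs)
        (hLs.abs.mul_left)
    · refine Eventually.of_forall fun l => ?_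
      rw [norm_mul, Real.norm_eq_abs, Real.norm_eq_abs, abs_of_nonneg ((hlim l).2 n).1]
      exact mul_le_mul_of_nonneg_right ((hlim l).2 n).2 (abs_nonneg _)
    · exact Eventually.of_forall fun l => (hlim l).1.mul_const _

theorem vn_cont (w : List Ltr) : Continuous fun p : ℝ × ℂ => vn (wmat w p.2) p.1 := by
  unfold vn
  refine Real.continuous_sqrt.comp ?_
  refine continuous_finset_sum _ fun i _ => ?_
  refine (Continuous.norm ?_).pow 2
  refine continuous_finset_sum _ fun j _ => ?_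
  refine ((wmat_cont w i j).comp continuous_snd).mul (Complex.continuous_ofReal.comp ?_)
  fin_cases j
  · show Continuous fun p : ℝ × ℂ => Real.cos p.1
    exact Real.continuous_cos.comp continuous_fst
  · show Continuous fun p : ℝ × ℂ => Real.sin p.1
    exact Real.continuous_sin.comp continuous_fst

theorem t_P2 (hLP : S_LP) (hP1 : S_P1) (hAV : S_AV2) (hFB : S_FB) : S_P2 := by
  intro w φ B hφ hB
  obtain ⟨hLc, hLs, -⟩ := hLP φ hφ
  have hK := (t_HBx.2.2 w).1
  have m1 : Measurable (Function.uncurry fun (β : ℝ) (l : ℂ) => Real.log (vn (wmat w l) β)) := by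
    have := (vn_cont w).measurable
    exact Real.measurable_log.comp this
  have m2 : ∀ l : ℂ, IntervalIntegrable (fun β : ℝ => Real.log (vn (wmat w l) β)) volume 0
      (2 * Real.pi) := by
    intro l
    have c1 : Continuous fun β : ℝ => vn (wmat w l) β := by
      have := (vn_cont w).comp (Continuous.prodMk (continuous_id (X := ℝ))
        (continuous_const (y := l)))
      exact this
    exact (c1.log fun β => ((hAV (wmat w l)).1 β).1.ne').intervalIntegrable _ _
  have m3 : ∀ l : ℂ, ∀ᵐ β : ℝ, Real.log (vn (wmat w l) β) ≤ Real.log (hs (wmat w l)) := fun l =>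
    Eventually.of_forall fun β =>
      Real.log_le_log ((hAV (wmat w l)).1 β).1 ((hAV (wmat w l)).1 β).2
  have m4 : ∀ l : ℂ, 2 * Real.pi * (Real.log (hs (wmat w l)) - 2) ≤
      ∫ β in (0 : ℝ)..(2 * Real.pi), Real.log (vn (wmat w l) β) := fun l => (hAV (wmat w l)).2
  have m5 : ∀ᵐ β : ℝ, 2 * Real.pi * B - (∫ l, |Lap φ l|) ≤
      ∫ l, Real.log (vn (wmat w l) β) * Lap φ l :=
    Eventually.of_forall fun β => hP1 w β φ B hφ fun α P hP hl => hB α β P hP hl
  have h := hFB (fun β l => Real.log (vn (wmat w l) β)) (fun l => Real.log (hs (wmat w l))) (Lap φ)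
    2 (2 * Real.pi * B - (∫ l, |Lap φ l|)) (by norm_num) m1 hK.measurable hK.locallyIntegrable
    hLc hLs m2 m3 m4 m5
  have h0 : 0 ≤ ∫ l, |Lap φ l| := integral_nonneg fun l => abs_nonneg _
  have e : 2 * Real.pi * B - (∫ l, |Lap φ l|) - 2 * (∫ l, |Lap φ l|) ≤
      ∫ l, Real.log (hs (wmat w l)) * Lap φ l := h
  generalize (∫ l, |Lap φ l|) = I at *
  linarith

end Pool.Agent.Q278.BM
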